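import Pool.Agent.Helper15.GD.Base
import Pool.Agent.Helper40.CX.H83QF.Fin

/-!
# Cohomology of the generic points of the powers of a variety: the axioms

`H(K)` is the part of weight two of the second cohomology of the generic point of a variety `X` over
`Ω` with function field `K`, that is `H²(X)` modulo the classes of divisors. A class in the `n`-th
tensor power of `H(K)` is in `sup K n` if it vanishes at the generic point of `X ^ n`, that is, if it
is supported on a divisor of `X ^ n`.
-/

set_option autoImplicit false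

namespace Pool.Agent.Helper35.KS

open IntermediateField TensorProduct CategoryTheory Pool.Agent.Helper15.GD
open CX.VC CX.Pool.Agent.Helper83.QF

section

variable {L : Type} [Field L]

/-- the `n`-th tensor power -/
noncomputable def tpow (V : ModuleCat.{0} L) (n : ℕ) : ModuleCat.{0} L :=
  ModuleCat.of L (⨂[L] _ : Fin n, V)

/-- the product of `n` elements, in the `n`-th tensor power -/
noncomputable def tens {V : ModuleCat.{0} L} {n : ℕ} (z : Fin n → V) : tpow V n :=
  PiTensorProduct.tprod L z

/-- the product of `n` homomorphisms -/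
noncomputable def tmap {V V' : ModuleCat.{0} L} {n : ℕ} (ψ : Fin n → (V ⟶ V')) :
    tpow V n ⟶ tpow V' n :=
  ModuleCat.ofHom (PiTensorProduct.map fun i => (ψ i).hom)

/-- the difference of the products of the `z i` and of the `z' i` is in `S` -/
def Cong {V : ModuleCat.{0} L} {n : ℕ} (S : Submodule L (tpow V n)) (z z' : Fin n → V) : Prop :=
  tens z - tens z' ∈ S

/-- `a` is an eigenvalue of `φ`, with an eigenvector in `P`. -/
def IsEigenvalue {V : ModuleCat.{0} L} (φ : V ⟶ V) (P : Submodule L V) (a : L) : Prop :=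
  ∃ x ∈ P, x ≠ 0 ∧ φ.hom x = a • x

/-- `P` is stable under `φ` -/
def IsStable {V : ModuleCat.{0} L} (φ : V ⟶ V) (P : Submodule L V) : Prop :=
  ∀ x ∈ P, φ.hom x ∈ P

end

/-- The vector spaces `H(K)`, the homomorphisms induced by homomorphisms of fields, the homomorphisms
`H(K) → H(K')` given by correspondences, and the classes in the tensor powers of `H(K)` which are
supported on divisors. -/
structure PowCoh (Ω L : Type) [Field Ω] [Field L] where
  H : Ext Ω → ModuleCat.{0} L
  map : ∀ {K K' : Ext Ω}, K.Hom K' → (H K ⟶ H K')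
  corr : ∀ K K' : Ext Ω, Set (H K ⟶ H K')
  sup : ∀ (K : Ext Ω) (n : ℕ), Submodule L (tpow (H K) n)

variable {Ω L : Type} [Field Ω] [Field L]

/-- finiteness -/
def PowCoh.Finite (T : PowCoh Ω L) : Prop :=
  ∀ K : Ext Ω, K.FG → FiniteDimensional L (T.H K)

/-- The homomorphisms induced by homomorphisms of fields are given by correspondences. -/
def PowCoh.Graph (T : PowCoh Ω L) : Prop :=
  ∀ (K K' : Ext Ω) (g : K.Hom K'), T.map g ∈ T.corr K K'

/-- If `K'` is algebraic over `K`, the homomorphism `H(K) → H(K')` has a left inverse which is given by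
a correspondence, the trace divided by the degree. -/
def PowCoh.Trace (T : PowCoh Ω L) : Prop :=
  ∀ (K K' : Ext Ω) (g : K.Hom K'), g.IsAlgebraic →
    ∃ ψ ∈ T.corr K' K, T.map g ≫ ψ = 𝟙 (T.H K)

/-- The identity is given by a correspondence. -/
def PowCoh.Identity (T : PowCoh Ω L) : Prop :=
  ∀ K : Ext Ω, 𝟙 (T.H K) ∈ T.corr K K

/-- Products of correspondences map classes supported on divisors to such classes. -/
def PowCoh.Stable (T : PowCoh Ω L) : Prop :=
  ∀ (K K' : Ext Ω) (n : ℕ) (ψ : Fin n → (T.H K ⟶ T.H K')), (∀ i, ψ i ∈ T.corr K K') →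
    ∀ t ∈ T.sup K n, (tmap ψ).hom t ∈ T.sup K' n

/-- If `z i ⊗ z j - z j ⊗ z i` is supported on a divisor `D` of `X ²`, then the difference of the
products of the elements of `z`, and of `z` with `z i` and `z j` exchanged, is supported on the inverse
image of `D` in `X ^ n`. -/
def PowCoh.Product (T : PowCoh Ω L) : Prop :=
  ∀ (K : Ext Ω) (n : ℕ) (z : Fin n → T.H K) (i j : Fin n), i ≠ j →
    Cong (T.sup K 2) ![z i, z j] ![z j, z i] → Cong (T.sup K n) z (z ∘ Equiv.swap i j)

/-- The surface over the extension field `Ω'` of `Ω` given by the same equation. -/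
noncomputable def extend (Q : Qua Ω) (Ω' : Type) [Field Ω'] [Algebra Ω Ω'] : Qua Ω' where
  N := Q.N
  e := Q.e
  a i := MvPolynomial.map (algebraMap Ω Ω') (Q.a i)
  hom i h := (Q.hom i h).map _
  zero i h := by rw [Q.zero i h, map_zero]

/-- The conjecture of Voisin for the surface: if `a 0` and `a 1` are zero-cycles of degree zero, then
a positive multiple of `a 0 × a 1 - a 1 × a 0` is rationally equivalent to zero. -/
def Voisin {Ω : Type} [Field Ω] [IsAlgClosed Ω] [CX.Good Ω] (Q : Qua Ω) : Prop :=
  ∀ a : Fin 2 → Q.surface.Cycles, (∀ i, (a i).sum (fun _ c => c) = 0) →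
    ∃ M : ℕ, 0 < M ∧ M • (extProd ![a 0, a 1] - extProd ![a 1, a 0]) ∈ (Q.surface.pow 2).Rat

/-- `K` is the function field of the surface: it is generated by `u, x, w` with
`w² = a₀(u) x⁴ + a₁(u) x³ + a₂(u) x² + a₃(u) x + a₄(u)`, where `u` and `x` are algebraically
independent. -/
def IsFieldOf (Q : Qua Ω) (K : Ext Ω) : Prop :=
  ∃ u x w : K, AlgebraicIndependent Ω ![u, x] ∧ w ^ 2 = qu (cf Q ![u, 1]) ![x, 1] ∧
    adjoin Ω {u, x, w} = ⊤

/-- Bloch and Srinivas: if the conjecture of Voisin is true for the surface over all algebraically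
closed extension fields of `Ω`, then the classes `x ⊗ y - y ⊗ x` are supported on divisors. -/
def PowCoh.BlochSrinivas [IsAlgClosed Ω] [CX.Good Ω] (T : PowCoh Ω L) : Prop :=
  ∀ (Q : Qua Ω) (K : Ext Ω), IsFieldOf Q K →
    (∀ (Ω' : Type) [Field Ω'] [Algebra Ω Ω'] [IsAlgClosed Ω'] [CX.Good Ω'],
      Voisin (extend Q Ω')) →
    ∀ x y : T.H K, Cong (T.sup K 2) ![x, y] ![y, x]

/-- The axioms. -/
structure PowCoh.IsTheory [IsAlgClosed Ω] [CX.Good Ω] (T : PowCoh Ω L) : Prop where
  finite : T.Finite
  graph : T.Graph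
  trace : T.Trace
  identity : T.Identity
  stable : T.Stable
  product : T.Product
  blochSrinivas : T.BlochSrinivas

/-- `K` is algebraic over `K0`, or a correspondence maps `H(K)` onto `H(K0)`. -/
def PowCoh.Linked (T : PowCoh Ω L) (K K0 : Ext Ω) : Prop :=
  (∃ g : K0.Hom K, g.IsAlgebraic) ∨ ∃ ψ ∈ T.corr K K0, Function.Surjective ψ.hom

end Pool.Agent.Helper35.KS
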