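import Mathlib

/-! Project K3 squares. Alternating tensors and correspondences: linear algebra. -/

set_option autoImplicit false

namespace Pool.Agent.Helper35.KS

open TensorProduct Polynomial

variable {L V : Type*} [Field L] [AddCommGroup V] [Module L V]

theorem aeval_rTensor (F : Module.End L V) (f : L[X]) :
    aeval (F.rTensor V : Module.End L (V ⊗[L] V)) f = (aeval F f).rTensor V :=
  aeval_algHom_apply (Module.End.rTensorAlgHom L V V) F f

theorem stable_aeval {W : Type*} [AddCommGroup W] [Module L W] (A : Module.End L W)
    (S : Submodule L W) (h : ∀ t ∈ S, A t ∈ S) (f : L[X]) : ∀ t ∈ S, aeval A f t ∈ S := by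
  induction f using Polynomial.induction_on' with
  | add f g hf hg =>
    intro t ht
    rw [map_add, LinearMap.add_apply]
    exact S.add_mem (hf t ht) (hg t ht)
  | monomial n a =>
    intro t ht
    rw [aeval_monomial, Module.End.mul_apply, Module.algebraMap_end_apply]
    refine S.smul_mem a ?_
    induction n with
    | zero => simpa using ht
    | succ n ih =>
      rw [pow_succ', Module.End.mul_apply]
      exact h _ ih

/-- The products of generalised eigenvectors for different eigenvalues. -/
theorem tmul_mem (F : Module.End L V) (S : Submodule L (V ⊗[L] V))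
    (hS : ∀ x y : V, x ⊗ₜ[L] y - y ⊗ₜ[L] x ∈ S) (hF : ∀ t ∈ S, F.rTensor V t ∈ S) {a b : L}
    (hab : a ≠ b) {x y : V} (hx : x ∈ F.maxGenEigenspace a) (hy : y ∈ F.maxGenEigenspace b) :
    x ⊗ₜ[L] y ∈ S := by
  obtain ⟨k, hk⟩ := (Module.End.mem_maxGenEigenspace F a x).1 hx
  obtain ⟨l, hl⟩ := (Module.End.mem_maxGenEigenspace F b y).1 hy
  have h1 : IsCoprime ((X - C a : L[X]) ^ k) ((X - C b) ^ l) :=
    (isCoprime_X_sub_C_of_isUnit_sub (sub_ne_zero.2 hab).isUnit).pow
  obtain ⟨u, v, huv⟩ := h1
  have e : ∀ c : L, aeval F (X - C c : L[X]) = F - c • (1 : Module.End L V) := by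
    intro c
    rw [map_sub, aeval_X, aeval_C, Algebra.algebraMap_eq_smul_one]
  have hx' : aeval F (v * (X - C b) ^ l) x = x := by
    have h2 := congrArg (fun f => aeval F f x) huv
    simp only [map_add, map_one, LinearMap.add_apply, Module.End.one_apply] at h2
    have h3 : aeval F (u * (X - C a) ^ k) x = 0 := by
      rw [map_mul, map_pow, e, Module.End.mul_apply, hk, map_zero]
    rw [h3, zero_add] at h2
    exact h2
  have hy' : aeval F (v * (X - C b) ^ l) y = 0 := by
    rw [map_mul, map_pow, e, Module.End.mul_apply, hl, map_zero]
  have h2 := stable_aeval (F.rTensor V) S hF (v * (X - C b) ^ l) _ (hS x y)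
  rw [aeval_rTensor, map_sub, LinearMap.rTensor_tmul, LinearMap.rTensor_tmul, hx', hy',
    zero_tmul, sub_zero] at h2
  exact h2

/-- the product of generalised eigenvectors -/
theorem tmul_mem_maxGen (F : Module.End L V) {a b : L} {x y : V}
    (hx : x ∈ F.maxGenEigenspace a) (hy : y ∈ F.maxGenEigenspace b) :
    x ⊗ₜ[L] y ∈ Module.End.maxGenEigenspace (TensorProduct.map F F) (a * b) := by
  obtain ⟨k, hk⟩ := (Module.End.mem_maxGenEigenspace F a x).1 hx
  obtain ⟨l, hl⟩ := (Module.End.mem_maxGenEigenspace F b y).1 hy
  rw [Module.End.mem_maxGenEigenspace]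
  let A : Module.End L (V ⊗[L] V) := TensorProduct.map (F - a • (1 : Module.End L V)) F
  let B : Module.End L (V ⊗[L] V) :=
    TensorProduct.map (1 : Module.End L V) (a • (F - b • (1 : Module.End L V)))
  have h1 : TensorProduct.map F F - (a * b) • (1 : Module.End L (V ⊗[L] V)) = A + B := by
    refine TensorProduct.ext' fun u w => ?_
    simp only [A, B, LinearMap.sub_apply, LinearMap.add_apply, LinearMap.smul_apply,
      TensorProduct.map_tmul, Module.End.one_apply, sub_tmul, tmul_smul, tmul_sub, smul_sub,
      ← smul_tmul']
    rw [smul_smul]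
    abel
  have hcomm : Commute A B := by
    show A * B = B * A
    refine TensorProduct.ext' fun u w => ?_
    simp only [A, B, Module.End.mul_apply, TensorProduct.map_tmul, Module.End.one_apply,
      LinearMap.smul_apply, LinearMap.sub_apply, map_smul, map_sub]
  have hA : (A ^ k) (x ⊗ₜ[L] y) = 0 := by
    have h2 : ∀ (m : ℕ) (u w : V), (A ^ m) (u ⊗ₜ[L] w) =
        (((F - a • (1 : Module.End L V)) ^ m) u) ⊗ₜ[L] ((F ^ m) w) := by
      intro m
      induction m with
      | zero => intro u w; simp
      | succ m ih =>
        intro u w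
        rw [pow_succ, Module.End.mul_apply]
        show (A ^ m) (((F - a • (1 : Module.End L V)) u) ⊗ₜ[L] (F w)) = _
        rw [ih, pow_succ, Module.End.mul_apply, pow_succ, Module.End.mul_apply]
    rw [h2, hk, zero_tmul]
  have hB : (B ^ l) (x ⊗ₜ[L] y) = 0 := by
    have h2 : ∀ (m : ℕ) (u w : V), (B ^ m) (u ⊗ₜ[L] w) =
        u ⊗ₜ[L] (a ^ m • (((F - b • (1 : Module.End L V)) ^ m) w)) := by
      intro m
      induction m with
      | zero => intro u w; simp
      | succ m ih =>
        intro u w
        rw [pow_succ, Module.End.mul_apply]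
        show (B ^ m) (u ⊗ₜ[L] (a • ((F - b • (1 : Module.End L V)) w))) = _
        rw [ih, map_smul, smul_smul, pow_succ ((F - b • (1 : Module.End L V))),
          Module.End.mul_apply, pow_succ]
    rw [h2, hl, smul_zero, tmul_zero]
  refine ⟨k + l, ?_⟩
  rw [h1, hcomm.add_pow, LinearMap.sum_apply]
  refine Finset.sum_eq_zero fun m _ => ?_
  rw [← Nat.cast_comm, Module.End.mul_apply]
  have h3 : (A ^ m * B ^ (k + l - m)) (x ⊗ₜ[L] y) = 0 := by
    rcases le_or_gt k m with hm | hm
    · rw [(hcomm.pow_pow m (k + l - m)).eq, Module.End.mul_apply]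
      obtain ⟨r, rfl⟩ := Nat.exists_eq_add_of_le hm
      rw [add_comm k r, pow_add A, Module.End.mul_apply, hA, map_zero, map_zero]
    · rw [Module.End.mul_apply]
      obtain ⟨r, hr⟩ := Nat.exists_eq_add_of_le (show l ≤ k + l - m by omega)
      rw [hr, add_comm l r, pow_add B, Module.End.mul_apply, hB, map_zero, map_zero]
  rw [h3, map_zero]

/-- **The generalised eigenspaces.** -/
theorem maxGen_le [IsAlgClosed L] [FiniteDimensional L V] (F : Module.End L V)
    (S : Submodule L (V ⊗[L] V)) (hS : ∀ x y : V, x ⊗ₜ[L] y - y ⊗ₜ[L] x ∈ S)
    (hF : ∀ t ∈ S, F.rTensor V t ∈ S) (c : L) (hc : ∀ a : L, F.HasEigenvalue a → a ^ 2 ≠ c) :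
    Module.End.maxGenEigenspace (TensorProduct.map F F) c ≤ S := by
  set G : Module.End L (V ⊗[L] V) := TensorProduct.map F F with hG
  let U : Submodule L (V ⊗[L] V) := ⨆ (d : L) (_ : d ≠ c), G.maxGenEigenspace d
  have htop : ∀ t : V ⊗[L] V, t ∈ (S ⊓ G.maxGenEigenspace c) ⊔ U := by
    intro t
    induction t using TensorProduct.induction_on with
    | zero => exact Submodule.zero_mem _
    | add s t hs ht => exact Submodule.add_mem _ hs ht
    | tmul x y =>
      have hx : x ∈ ⨆ a : L, F.maxGenEigenspace a := by
        rw [Module.End.iSup_maxGenEigenspace_eq_top]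
        exact Submodule.mem_top
      have hy : y ∈ ⨆ a : L, F.maxGenEigenspace a := by
        rw [Module.End.iSup_maxGenEigenspace_eq_top]
        exact Submodule.mem_top
      induction hx using Submodule.iSup_induction' with
      | zero =>
        rw [zero_tmul]
        exact Submodule.zero_mem _
      | add x x' _ _ hx hx' =>
        rw [add_tmul]
        exact Submodule.add_mem _ hx hx'
      | mem a x hx =>
        induction hy using Submodule.iSup_induction' with
        | zero =>
          rw [tmul_zero]
          exact Submodule.zero_mem _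
        | add y y' _ _ hy hy' =>
          rw [tmul_add]
          exact Submodule.add_mem _ hy hy'
        | mem b y hy =>
          have h1 := tmul_mem_maxGen F hx hy
          by_cases hd : a * b = c
          · refine Submodule.mem_sup_left ⟨?_, hd ▸ h1⟩
            by_cases hab : a = b
            · subst hab
              have hx0 : x = 0 := by
                by_contra hx0
                refine hc a ?_ (by rw [sq, hd])
                rw [Module.End.hasEigenvalue_iff]
                intro h0
                obtain ⟨k, hk⟩ := (Module.End.mem_maxGenEigenspace F a x).1 hx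
                have h2 : ∀ (m : ℕ) (u : V), ((F - a • (1 : Module.End L V)) ^ m) u = 0 → u = 0 := by
                  intro m
                  induction m with
                  | zero => intro u hu; simpa using hu
                  | succ m ih =>
                    intro u hu
                    rw [pow_succ, Module.End.mul_apply] at hu
                    have h3 := ih _ hu
                    have h4 : u ∈ F.eigenspace a := by
                      rw [Module.End.mem_eigenspace_iff]
                      exact sub_eq_zero.1 h3
                    rw [h0] at h4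
                    exact h4
                exact hx0 (h2 k x hk)
              rw [hx0, zero_tmul]
              exact Submodule.zero_mem _
            · exact tmul_mem F S hS hF hab hx hy
          · exact Submodule.mem_sup_right (Submodule.mem_iSup_of_mem (a * b)
              (Submodule.mem_iSup_of_mem hd h1))
  intro t ht
  obtain ⟨s, hs, u, hu, hsu⟩ := Submodule.mem_sup.1 (htop t)
  have h1 : u ∈ G.maxGenEigenspace c := by
    have h2 : u = t - s := by rw [← hsu]; abel
    rw [h2]
    exact Submodule.sub_mem _ ht hs.2
  have h2 := Module.End.independent_maxGenEigenspace G c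
  have h3 : u = 0 := Submodule.disjoint_def.1 h2 u h1 hu
  rw [← hsu, h3, add_zero]
  exact hs.1

end Pool.Agent.Helper35.KS
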