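import Pool.Agent.Helper35.KS.Lin

/-! Project K3 powers. Tensor powers: linear algebra. -/

set_option autoImplicit false

namespace Pool.Agent.Helper35.KS

open TensorProduct Polynomial

variable {L V : Type*} [Field L] [AddCommGroup V] [Module L V] {n : ℕ}

/-- `F` in the factor `i` -/
noncomputable def slot (i : Fin n) (F : Module.End L V) : Module.End L (⨂[L] _ : Fin n, V) :=
  PiTensorProduct.map (Function.update (fun _ => LinearMap.id) i F)

theorem slot_tprod (i : Fin n) (F : Module.End L V) (z : Fin n → V) :
    slot i F (PiTensorProduct.tprod L z) =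
      PiTensorProduct.tprod L (Function.update z i (F (z i))) := by
  rw [slot, PiTensorProduct.map_tprod]
  congr 1
  funext k
  by_cases hk : k = i
  · subst hk
    rw [Function.update_self, Function.update_self]
  · rw [Function.update_of_ne hk, Function.update_of_ne hk]
    rfl

theorem slot_pow_tprod (i : Fin n) (F : Module.End L V) (m : ℕ) (z : Fin n → V) :
    (slot i F ^ m) (PiTensorProduct.tprod L z) =
      PiTensorProduct.tprod L (Function.update z i ((F ^ m) (z i))) := by
  induction m with
  | zero =>
    rw [pow_zero, pow_zero, Module.End.one_apply, Module.End.one_apply, Function.update_eq_self]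
  | succ m ih =>
    rw [pow_succ', Module.End.mul_apply, ih, slot_tprod, Function.update_self,
      Function.update_idem, pow_succ', Module.End.mul_apply]

theorem aeval_slot (i : Fin n) (F : Module.End L V) (f : L[X]) (z : Fin n → V) :
    aeval (slot i F) f (PiTensorProduct.tprod L z) =
      PiTensorProduct.tprod L (Function.update z i (aeval F f (z i))) := by
  induction f using Polynomial.induction_on' with
  | add f g hf hg =>
    rw [map_add, LinearMap.add_apply, hf, hg, map_add, LinearMap.add_apply,
      MultilinearMap.map_update_add]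
  | monomial m a =>
    rw [aeval_monomial, Module.End.mul_apply, Module.algebraMap_end_apply, slot_pow_tprod,
      aeval_monomial, Module.End.mul_apply, Module.algebraMap_end_apply,
      MultilinearMap.map_update_smul]

/-- Two different eigenvalues. -/
theorem tprod_mem (F : Module.End L V) (S : Submodule L (⨂[L] _ : Fin n, V))
    (hS : ∀ (z : Fin n → V) (i j : Fin n), i ≠ j →
      PiTensorProduct.tprod L z - PiTensorProduct.tprod L (z ∘ Equiv.swap i j) ∈ S)
    (hF : ∀ (i : Fin n), ∀ t ∈ S, slot i F t ∈ S) {a : Fin n → L} {i j : Fin n} (h : a i ≠ a j)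
    {z : Fin n → V} (hz : ∀ k, z k ∈ F.maxGenEigenspace (a k)) :
    PiTensorProduct.tprod L z ∈ S := by
  have hij : i ≠ j := fun h' => h (h' ▸ rfl)
  obtain ⟨k, hk⟩ := (Module.End.mem_maxGenEigenspace F (a i) (z i)).1 (hz i)
  obtain ⟨l, hl⟩ := (Module.End.mem_maxGenEigenspace F (a j) (z j)).1 (hz j)
  have h1 : IsCoprime ((X - C (a i) : L[X]) ^ k) ((X - C (a j)) ^ l) :=
    (isCoprime_X_sub_C_of_isUnit_sub (sub_ne_zero.2 h).isUnit).pow
  obtain ⟨u, v, huv⟩ := h1
  have e : ∀ c : L, aeval F (X - C c : L[X]) = F - c • (1 : Module.End L V) := by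
    intro c
    rw [map_sub, aeval_X, aeval_C, Algebra.algebraMap_eq_smul_one]
  have hx' : aeval F (v * (X - C (a j)) ^ l) (z i) = z i := by
    have h2 := congrArg (fun f => aeval F f (z i)) huv
    simp only [map_add, map_one, LinearMap.add_apply, Module.End.one_apply] at h2
    have h3 : aeval F (u * (X - C (a i)) ^ k) (z i) = 0 := by
      rw [map_mul, map_pow, e, Module.End.mul_apply, hk, map_zero]
    rw [h3, zero_add] at h2
    exact h2
  have hy' : aeval F (v * (X - C (a j)) ^ l) (z j) = 0 := by
    rw [map_mul, map_pow, e, Module.End.mul_apply, hl, map_zero]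
  have h2 := stable_aeval (slot i F) S (hF i) (v * (X - C (a j)) ^ l) _ (hS z i j hij)
  rw [map_sub, aeval_slot, aeval_slot, hx', Function.update_eq_self, Function.comp_apply,
    Equiv.swap_apply_left, hy', MultilinearMap.map_update_zero, sub_zero] at h2
  exact h2

/-- commuting endomorphisms -/
theorem mem_maxGen_mul {W : Type*} [AddCommGroup W] [Module L W] {A B : Module.End L W}
    (hAB : Commute A B) {a b : L} {x : W} (hx : x ∈ A.maxGenEigenspace a)
    (hx' : x ∈ B.maxGenEigenspace b) : x ∈ Module.End.maxGenEigenspace (A * B) (a * b) := by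
  obtain ⟨k, hk⟩ := (Module.End.mem_maxGenEigenspace A a x).1 hx
  obtain ⟨l, hl⟩ := (Module.End.mem_maxGenEigenspace B b x).1 hx'
  rw [Module.End.mem_maxGenEigenspace]
  let P : Module.End L W := (A - a • (1 : Module.End L W)) * B
  let Q : Module.End L W := a • (B - b • (1 : Module.End L W))
  have h1 : A * B - (a * b) • (1 : Module.End L W) = P + Q := by
    simp only [P, Q, sub_mul, smul_sub, smul_smul, smul_mul_assoc, one_mul]
    abel
  have c1 : Commute (A - a • (1 : Module.End L W)) B :=
    hAB.sub_left ((Commute.one_left B).smul_left a)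
  have c2 : Commute (A - a • (1 : Module.End L W)) (B - b • (1 : Module.End L W)) :=
    c1.sub_right ((Commute.one_right _).smul_right b)
  have c3 : Commute B (B - b • (1 : Module.End L W)) :=
    (Commute.refl B).sub_right ((Commute.one_right _).smul_right b)
  have hcomm : Commute P Q := (c2.mul_left c3).smul_right a
  have hP : (P ^ k) x = 0 := by
    rw [show P = (A - a • (1 : Module.End L W)) * B from rfl, c1.mul_pow, (c1.pow_pow k k).eq,
      Module.End.mul_apply, hk, map_zero]
  have hQ : (Q ^ l) x = 0 := by
    rw [show Q = a • (B - b • (1 : Module.End L W)) from rfl, _root_.smul_pow, LinearMap.smul_apply, hl,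
      smul_zero]
  refine ⟨k + l, ?_⟩
  rw [h1, hcomm.add_pow, LinearMap.sum_apply]
  refine Finset.sum_eq_zero fun m _ => ?_
  rw [← Nat.cast_comm, Module.End.mul_apply]
  have h3 : (P ^ m * Q ^ (k + l - m)) x = 0 := by
    rcases le_or_gt k m with hm | hm
    · rw [(hcomm.pow_pow m (k + l - m)).eq, Module.End.mul_apply]
      obtain ⟨r, rfl⟩ := Nat.exists_eq_add_of_le hm
      rw [add_comm k r, pow_add P, Module.End.mul_apply, hP, map_zero, map_zero]
    · rw [Module.End.mul_apply]
      obtain ⟨r, hr⟩ := Nat.exists_eq_add_of_le (show l ≤ k + l - m by omega)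
      rw [hr, add_comm l r, pow_add Q, Module.End.mul_apply, hQ, map_zero, map_zero]
  rw [h3, map_zero]

theorem tprod_mem_slot (F : Module.End L V) {a : L} {i : Fin n} {z : Fin n → V}
    (hz : z i ∈ F.maxGenEigenspace a) :
    PiTensorProduct.tprod L z ∈ (slot i F).maxGenEigenspace a := by
  obtain ⟨k, hk⟩ := (Module.End.mem_maxGenEigenspace F a (z i)).1 hz
  rw [Module.End.mem_maxGenEigenspace]
  refine ⟨k, ?_⟩
  have h1 := aeval_slot i F ((X - C a) ^ k) z
  rw [map_pow, map_sub, aeval_X, aeval_C, Algebra.algebraMap_eq_smul_one, map_pow, map_sub,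
    aeval_X, aeval_C, Algebra.algebraMap_eq_smul_one, hk, MultilinearMap.map_update_zero] at h1
  exact h1

theorem tprod_mem_maxGen (F : Module.End L V) {a : Fin n → L} {z : Fin n → V}
    (hz : ∀ k, z k ∈ F.maxGenEigenspace (a k)) :
    PiTensorProduct.tprod L z ∈ Module.End.maxGenEigenspace
      (PiTensorProduct.map fun _ : Fin n => F) (∏ k, a k) := by
  classical
  have h : ∀ s : Finset (Fin n), PiTensorProduct.tprod L z ∈ Module.End.maxGenEigenspace
      (PiTensorProduct.map fun k : Fin n => if k ∈ s then F else LinearMap.id)
      (∏ k ∈ s, a k) := by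
    intro s
    induction s using Finset.induction_on with
    | empty =>
      rw [Module.End.mem_maxGenEigenspace]
      refine ⟨1, ?_⟩
      rw [pow_one, Finset.prod_empty, one_smul, LinearMap.sub_apply, Module.End.one_apply,
        PiTensorProduct.map_tprod]
      simp
    | insert i s hi ih =>
      have h1 : (PiTensorProduct.map fun k : Fin n =>
          if k ∈ insert i s then F else LinearMap.id : Module.End L (⨂[L] _ : Fin n, V)) =
          slot i F * PiTensorProduct.map fun k : Fin n => if k ∈ s then F else LinearMap.id := by
        refine PiTensorProduct.ext (MultilinearMap.ext fun z => ?_)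
        simp only [LinearMap.compMultilinearMap_apply, Module.End.mul_apply,
          PiTensorProduct.map_tprod, slot_tprod]
        congr 1
        funext k
        by_cases hk : k = i
        · subst hk
          rw [Function.update_self, if_pos (Finset.mem_insert_self _ _), if_neg hi]
          rfl
        · rw [Function.update_of_ne hk]
          by_cases hs : k ∈ s
          · rw [if_pos (Finset.mem_insert_of_mem hs), if_pos hs]
          · rw [if_neg (fun h => (Finset.mem_insert.1 h).elim hk hs), if_neg hs]
      have h2 : Commute (slot i F) (PiTensorProduct.map fun k : Fin n =>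
          if k ∈ s then F else LinearMap.id : Module.End L (⨂[L] _ : Fin n, V)) := by
        show slot i F * _ = _ * slot i F
        refine PiTensorProduct.ext (MultilinearMap.ext fun z => ?_)
        simp only [LinearMap.compMultilinearMap_apply, Module.End.mul_apply,
          PiTensorProduct.map_tprod, slot_tprod]
        congr 1
        funext k
        by_cases hk : k = i
        · subst hk
          rw [Function.update_self, Function.update_self, if_neg hi]
          rfl
        · rw [Function.update_of_ne hk, Function.update_of_ne hk]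
      rw [h1, Finset.prod_insert hi]
      exact mem_maxGen_mul h2 (tprod_mem_slot F (hz i)) ih
  have h1 := h Finset.univ
  simp only [Finset.mem_univ, if_true] at h1
  exact h1

/-- **The generalised eigenspaces of the tensor powers.** -/
theorem maxGen_pow_le [IsAlgClosed L] [FiniteDimensional L V] (F : Module.End L V)
    (S : Submodule L (⨂[L] _ : Fin n, V)) (hn : n ≠ 0)
    (hS : ∀ (z : Fin n → V) (i j : Fin n), i ≠ j →
      PiTensorProduct.tprod L z - PiTensorProduct.tprod L (z ∘ Equiv.swap i j) ∈ S)
    (hF : ∀ (i : Fin n), ∀ t ∈ S, slot i F t ∈ S) (c : L)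
    (hc : ∀ a : L, F.HasEigenvalue a → a ^ n ≠ c) :
    Module.End.maxGenEigenspace (PiTensorProduct.map fun _ : Fin n => F) c ≤ S := by
  classical
  set G : Module.End L (⨂[L] _ : Fin n, V) := PiTensorProduct.map fun _ : Fin n => F with hG
  let U : Submodule L (⨂[L] _ : Fin n, V) := ⨆ (d : L) (_ : d ≠ c), G.maxGenEigenspace d
  have hzero : ∀ (a : L) (x : V), x ∈ F.maxGenEigenspace a → x ≠ 0 → F.HasEigenvalue a := by
    intro a x hx hx0
    rw [Module.End.hasEigenvalue_iff]
    intro h0
    obtain ⟨k, hk⟩ := (Module.End.mem_maxGenEigenspace F a x).1 hx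
    have h2 : ∀ (m : ℕ) (u : V), ((F - a • (1 : Module.End L V)) ^ m) u = 0 → u = 0 := by
      intro m
      induction m with
      | zero => intro u hu; simpa using hu
      | succ m ih =>
        intro u hu
        rw [pow_succ, Module.End.mul_apply] at hu
        have h3 := ih _ hu
        have h4 : u ∈ F.eigenspace a := by
          rw [Module.End.mem_eigenspace_iff]
          exact sub_eq_zero.1 h3
        rw [h0] at h4
        exact h4
    exact hx0 (h2 k x hk)
  have hpure : ∀ (s : Finset (Fin n)) (z : Fin n → V),
      (∀ k, k ∉ s → ∃ a, z k ∈ F.maxGenEigenspace a) →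
      PiTensorProduct.tprod L z ∈ (S ⊓ G.maxGenEigenspace c) ⊔ U := by
    intro s
    induction s using Finset.induction_on with
    | empty =>
      intro z hz
      choose a ha using fun k => hz k (Finset.notMem_empty k)
      have h1 := tprod_mem_maxGen F ha
      by_cases hd : ∏ k, a k = c
      · refine Submodule.mem_sup_left ⟨?_, hd ▸ h1⟩
        by_cases hab : ∀ i j, a i = a j
        · have i0 : Fin n := ⟨0, Nat.pos_of_ne_zero hn⟩
          have h2 : a i0 ^ n = c := by
            rw [← hd, Finset.prod_congr rfl fun k _ => hab k i0, Finset.prod_const,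
              Finset.card_univ, Fintype.card_fin]
          by_cases hx : z i0 = 0
          · rw [show PiTensorProduct.tprod L z = 0 from
              MultilinearMap.map_coord_zero _ i0 hx]
            exact Submodule.zero_mem _
          · exact absurd h2 (hc _ (hzero _ _ (ha i0) hx))
        · simp only [not_forall] at hab
          obtain ⟨i, j, hij⟩ := hab
          exact tprod_mem F S hS hF hij ha
      · exact Submodule.mem_sup_right (Submodule.mem_iSup_of_mem (∏ k, a k)
          (Submodule.mem_iSup_of_mem hd h1))
    | insert i s hi ih =>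
      intro z hz
      have hzi : z i ∈ ⨆ a : L, F.maxGenEigenspace a := by
        rw [Module.End.iSup_maxGenEigenspace_eq_top]
        exact Submodule.mem_top
      have key : ∀ x ∈ ⨆ a : L, F.maxGenEigenspace a,
          PiTensorProduct.tprod L (Function.update z i x) ∈
            (S ⊓ G.maxGenEigenspace c) ⊔ U := by
        intro x hx
        induction hx using Submodule.iSup_induction' with
        | zero =>
          rw [MultilinearMap.map_update_zero]
          exact Submodule.zero_mem _
        | add x x' _ _ hx hx' =>
          rw [MultilinearMap.map_update_add]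
          exact Submodule.add_mem _ hx hx'
        | mem a x hx =>
          refine ih _ fun k hk => ?_
          by_cases hki : k = i
          · rw [hki, Function.update_self]
            exact ⟨a, hx⟩
          · rw [Function.update_of_ne hki]
            exact hz k fun h => (Finset.mem_insert.1 h).elim hki hk
      have h2 := key _ hzi
      rwa [Function.update_eq_self] at h2
  have htop : ∀ t : ⨂[L] _ : Fin n, V, t ∈ (S ⊓ G.maxGenEigenspace c) ⊔ U := by
    intro t
    have h1 : t ∈ Submodule.span L (Set.range (PiTensorProduct.tprod L (s := fun _ : Fin n => V))) := by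
      rw [PiTensorProduct.span_tprod_eq_top]
      exact Submodule.mem_top
    refine Submodule.span_le.2 ?_ h1
    rintro _ ⟨z, rfl⟩
    exact hpure Finset.univ z fun k hk => absurd (Finset.mem_univ k) hk
  intro t ht
  obtain ⟨s, hs, u, hu, hsu⟩ := Submodule.mem_sup.1 (htop t)
  have h1 : u ∈ G.maxGenEigenspace c := by
    have h2 : u = t - s := by rw [← hsu]; abel
    rw [h2]
    exact Submodule.sub_mem _ ht hs.2
  have h2 := Module.End.independent_maxGenEigenspace G c
  have h3 : u = 0 := Submodule.disjoint_def.1 h2 u h1 hu
  rw [← hsu, h3, add_zero]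
  exact hs.1

end Pool.Agent.Helper35.KS
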