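import Pool.Agent.Helper35.KS.Defs
import Pool.Agent.Helper35.KS.Pow

/-! Project K3 powers. The main theorem. -/

set_option autoImplicit false

namespace Pool.Agent.Helper35.KS

open IntermediateField TensorProduct CategoryTheory Pool.Agent.Helper15.GD Polynomial
open CX.VC CX.Pool.Agent.Helper83.QF

theorem voisin_two {Ω : Type} [Field Ω] [IsAlgClosed Ω] [CX.Good Ω] (Q : Qua Ω) (hN : Q.N = 2) :
    Voisin Q := by
  intro a ha
  obtain ⟨M, hM, h⟩ := CX.Pool.Agent.Helper83.QF.voisin hN le_rfl a ha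
  refine ⟨M, hM, ?_⟩
  convert h using 2
  rw [show (Finset.univ : Finset (Equiv.Perm (Fin 2))) = {1, Equiv.swap 0 1} by decide,
    Finset.sum_pair (by decide), Equiv.Perm.sign_one, Equiv.Perm.sign_swap (by decide)]
  have e1 : (fun i => a ((1 : Equiv.Perm (Fin 2)) i)) = ![a 0, a 1] := by
    funext i; fin_cases i <;> rfl
  have e2 : (fun i => a (Equiv.swap (0 : Fin 2) 1 i)) = ![a 1, a 0] := by
    funext i
    fin_cases i
    · show a (Equiv.swap (0 : Fin 2) 1 0) = a 1
      rw [Equiv.swap_apply_left]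
    · show a (Equiv.swap (0 : Fin 2) 1 1) = a 0
      rw [Equiv.swap_apply_right]
  rw [e1, e2]
  simp [sub_eq_add_neg]

section

variable {L V : Type*} [Field L] [AddCommGroup V] [Module L V] {n : ℕ}

theorem tprod_perm_mem (S : Submodule L (⨂[L] _ : Fin n, V))
    (hS : ∀ (z : Fin n → V) (i j : Fin n), i ≠ j →
      PiTensorProduct.tprod L z - PiTensorProduct.tprod L (z ∘ Equiv.swap i j) ∈ S)
    (σ : Equiv.Perm (Fin n)) : ∀ z : Fin n → V,
      PiTensorProduct.tprod L z - PiTensorProduct.tprod L (z ∘ σ) ∈ S := by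
  induction σ using Equiv.Perm.swap_induction_on with
  | one =>
    intro z
    have : z ∘ (1 : Equiv.Perm (Fin n)) = z := rfl
    rw [this, sub_self]
    exact S.zero_mem
  | swap_mul f x y hxy ih =>
    intro z
    have e : z ∘ (Equiv.swap x y * f : Equiv.Perm (Fin n)) = (z ∘ Equiv.swap x y) ∘ f := rfl
    have h1 := hS z x y hxy
    have h2 := ih (z ∘ Equiv.swap x y)
    rw [e, show PiTensorProduct.tprod L z - PiTensorProduct.tprod L ((z ∘ Equiv.swap x y) ∘ f) =
      (PiTensorProduct.tprod L z - PiTensorProduct.tprod L (z ∘ Equiv.swap x y)) +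
      (PiTensorProduct.tprod L (z ∘ Equiv.swap x y) -
        PiTensorProduct.tprod L ((z ∘ Equiv.swap x y) ∘ f)) by abel]
    exact S.add_mem h1 h2

/-- A stable subspace is the sum of its generalised eigenspaces. -/
theorem le_of_maxGen {W : Type*} [AddCommGroup W] [Module L W] [IsAlgClosed L]
    [FiniteDimensional L W] (G : Module.End L W) (S P : Submodule L W) (hP : ∀ t ∈ P, G t ∈ P)
    (h : ∀ c : L, (∃ t ∈ P, t ≠ 0 ∧ G t = c • t) → G.maxGenEigenspace c ≤ S) : P ≤ S := by
  let GP : Module.End L P := G.restrict hP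
  intro t ht
  have h1 : (⟨t, ht⟩ : P) ∈ ⨆ c : L, GP.maxGenEigenspace c := by
    rw [Module.End.iSup_maxGenEigenspace_eq_top]
    exact Submodule.mem_top
  have key : ∀ x ∈ ⨆ c : L, GP.maxGenEigenspace c, (x : W) ∈ S := by
    intro x hx
    induction hx using Submodule.iSup_induction' with
    | zero => exact S.zero_mem
    | add x y _ _ hx hy => exact S.add_mem hx hy
    | mem c x hx =>
      by_cases hx0 : x = 0
      · rw [hx0]
        exact S.zero_mem
      have h2 : GP.HasEigenvalue c := by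
        rw [Module.End.hasEigenvalue_iff]
        intro h0
        obtain ⟨k, hk⟩ := (Module.End.mem_maxGenEigenspace GP c x).1 hx
        have h2 : ∀ (m : ℕ) (u : P), ((GP - c • (1 : Module.End L P)) ^ m) u = 0 → u = 0 := by
          intro m
          induction m with
          | zero => intro u hu; simpa using hu
          | succ m ih =>
            intro u hu
            rw [pow_succ, Module.End.mul_apply] at hu
            have h3 := ih _ hu
            have h4 : u ∈ GP.eigenspace c := by
              rw [Module.End.mem_eigenspace_iff]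
              exact sub_eq_zero.1 h3
            rw [h0] at h4
            exact h4
        exact hx0 (h2 k x hk)
      obtain ⟨v, hv⟩ := h2.exists_hasEigenvector
      have h3 : G.maxGenEigenspace c ≤ S := by
        refine h c ⟨v, v.2, ?_, ?_⟩
        · intro h0
          exact hv.2 (Subtype.ext h0)
        · have := hv.apply_eq_smul
          exact congrArg Subtype.val this
      refine h3 ?_
      obtain ⟨k, hk⟩ := (Module.End.mem_maxGenEigenspace GP c x).1 hx
      rw [Module.End.mem_maxGenEigenspace]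
      refine ⟨k, ?_⟩
      have h4 : ∀ (m : ℕ) (u : P), (((GP - c • (1 : Module.End L P)) ^ m) u : W) =
          ((G - c • (1 : Module.End L W)) ^ m) (u : W) := by
        intro m
        induction m with
        | zero => intro u; rfl
        | succ m ih =>
          intro u
          rw [pow_succ, Module.End.mul_apply, ih, pow_succ, Module.End.mul_apply]
          rfl
      rw [← h4, hk]
      rfl
  exact key _ h1

end

variable {Ω L : Type} [Field Ω] [IsAlgClosed Ω] [CX.Good Ω] [Field L]

theorem tmap_tens {V V' : ModuleCat.{0} L} {n : ℕ} (ψ : Fin n → (V ⟶ V')) (z : Fin n → V) :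
    (tmap ψ).hom (tens z) = tens fun i => (ψ i).hom (z i) :=
  PiTensorProduct.map_tprod _ _

theorem swap_mem (T : PowCoh Ω L) (hT : T.IsTheory) (Q : Qua Ω) (hN : Q.N = 2) (K : Ext Ω)
    (hK : IsFieldOf Q K) {n : ℕ} (z : Fin n → T.H K) (i j : Fin n) (hij : i ≠ j) :
    Cong (T.sup K n) z (z ∘ Equiv.swap i j) := by
  refine hT.product K n z i j hij (hT.blochSrinivas Q K hK ?_ _ _)
  intro Ω' _ _ _ _
  exact voisin_two (extend Q Ω') hN

theorem swap_mem' (T : PowCoh Ω L) (hT : T.IsTheory) (Q : Qua Ω) (hN : Q.N = 2) (K K0 : Ext Ω)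
    (hK : IsFieldOf Q K) (h : T.Linked K K0) {n : ℕ} (z : Fin n → T.H K0) (i j : Fin n)
    (hij : i ≠ j) : Cong (T.sup K0 n) z (z ∘ Equiv.swap i j) := by
  have h0 : ∃ ψ ∈ T.corr K K0, Function.Surjective ψ.hom := by
    rcases h with ⟨g, hg⟩ | h
    · obtain ⟨ψ, hψ, h1⟩ := hT.trace K0 K g hg
      refine ⟨ψ, hψ, fun x => ⟨(T.map g).hom x, ?_⟩⟩
      have := congrArg (fun f => f.hom x) h1
      exact this
    · exact h
  obtain ⟨ψ, hψ, hs⟩ := h0
  choose y hy using fun k => hs (z k)
  have h1 := hT.stable K K0 n (fun _ => ψ) (fun _ => hψ) _ (swap_mem T hT Q hN K hK y i j hij)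
  rw [map_sub, tmap_tens, tmap_tens] at h1
  have e : (fun k => ψ.hom (y k)) = z := funext hy
  have e' : (fun k => ψ.hom ((y ∘ Equiv.swap i j) k)) = z ∘ Equiv.swap i j :=
    funext fun k => hy _
  rwa [e, e'] at h1

theorem slot_mem (T : PowCoh Ω L) (hT : T.IsTheory) (K : Ext Ω) (φ : T.H K ⟶ T.H K)
    (hφ : φ ∈ T.corr K K) (n : ℕ) (i : Fin n) (t : tpow (T.H K) n) (ht : t ∈ T.sup K n) :
    (slot i φ.hom) t ∈ T.sup K n := by
  have h1 := hT.stable K K n (Function.update (fun _ => CategoryStruct.id (T.H K)) i φ)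
    (fun k => by
      by_cases hk : k = i
      · subst hk
        rw [Function.update_self]
        exact hφ
      · rw [Function.update_of_ne hk]
        exact hT.identity K) t ht
  have h2 : (fun k => (Function.update (fun _ => CategoryStruct.id (T.H K)) i φ k).hom) =
      Function.update (fun _ => LinearMap.id) i φ.hom := by
    funext k
    by_cases hk : k = i
    · subst hk
      rw [Function.update_self, Function.update_self]
    · rw [Function.update_of_ne hk, Function.update_of_ne hk]
      rfl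
  have h3 : slot i φ.hom = PiTensorProduct.map (R := L) (s := fun _ : Fin n => T.H K)
      (t := fun _ : Fin n => T.H K)
      (fun k => (Function.update (fun _ => CategoryStruct.id (T.H K)) i φ k).hom) := by
    rw [h2]
    rfl
  rw [h3]
  exact h1

theorem main [IsAlgClosed L] (T : PowCoh Ω L) (hT : T.IsTheory) (Q : Qua Ω) (hN : Q.N = 2)
    (K K0 : Ext Ω) (hK : IsFieldOf Q K) (hK0 : K0.FG) (h : T.Linked K K0) (n : ℕ) (hn : 0 < n) :
    (∀ (z : Fin n → T.H K0) (σ : Equiv.Perm (Fin n)), Cong (T.sup K0 n) z (z ∘ σ)) ∧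
    ∀ φ ∈ T.corr K0 K0, ∀ P : Submodule L (tpow (T.H K0) n), IsStable (tmap fun _ => φ) P →
      ((∀ a c : L, IsEigenvalue φ ⊤ a → IsEigenvalue (tmap fun _ => φ) P c → c ≠ a ^ n) →
          P ≤ T.sup K0 n) ∧
        ∀ q : L, (∀ a : L, IsEigenvalue φ ⊤ a → ¬ IsIntegral ℤ (a ^ n / q)) →
          (∀ c : L, IsEigenvalue (tmap fun _ => φ) P c → IsIntegral ℤ (c / q)) →
            P ≤ T.sup K0 n := by
  have hfin := hT.finite K0 hK0
  have hsw := fun z i j hij => swap_mem' T hT Q hN K K0 hK h (n := n) z i j hij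
  have key : ∀ φ ∈ T.corr K0 K0, ∀ P : Submodule L (tpow (T.H K0) n),
      IsStable (tmap fun _ => φ) P →
      (∀ a c : L, IsEigenvalue φ ⊤ a → IsEigenvalue (tmap fun _ => φ) P c → c ≠ a ^ n) →
        P ≤ T.sup K0 n := by
    intro φ hφ P hP hc
    have hfd : FiniteDimensional L (⨂[L] _ : Fin n, T.H K0) := inferInstance
    refine le_of_maxGen (W := ⨂[L] _ : Fin n, T.H K0) (PiTensorProduct.map fun _ => φ.hom) _ P
      hP fun c hc' => ?_
    refine maxGen_pow_le φ.hom (T.sup K0 n) hn.ne' hsw (fun i t ht => ?_) c fun a ha => ?_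
    · exact slot_mem T hT K0 φ hφ n i t ht
    · obtain ⟨x, hx⟩ := ha.exists_hasEigenvector
      exact (hc a c ⟨x, Submodule.mem_top, hx.2, hx.apply_eq_smul⟩ hc').symm
  refine ⟨fun z σ => tprod_perm_mem _ hsw σ z, fun φ hφ P hP => ⟨key φ hφ P hP, ?_⟩⟩
  intro q h1 h2
  refine key φ hφ P hP fun a c ha hc hac => ?_
  exact h1 a ha (hac ▸ h2 c hc)

end Pool.Agent.Helper35.KS
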